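import Mathlib
import Pool.Agent.Zk78.FG.App2Core

/-!
# Project HT, part M: extension of embeddings of a countable field with transcendental values
-/

set_option autoImplicit false
set_option linter.all false

open Polynomial

namespace Pool.Agent.Zk81.HT

/-- an embedding of `A` extends to `B`, algebraic over `A(r)`, with any transcendental value at `r` -/
theorem lift_trans {A B C : Type} [Field A] [Field B] [Field C] [Algebra A B] [IsAlgClosed C]
    (φ : A →+* C) (r : B) (hr : Transcendental A r) (x : C)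
    (hx : ∀ P : A[X], P ≠ 0 → P.eval₂ φ x ≠ 0)
    (hB : Algebra.IsAlgebraic (IntermediateField.adjoin A {r}) B) :
    ∃ ι : B →+* C, (∀ a, ι (algebraMap A B a) = φ a) ∧ ι r = x := by
  letI : Algebra A C := φ.toAlgebra
  have hx' : Transcendental A x := by
    rw [transcendental_iff]
    intro P hP
    by_contra h
    exact hx P h hP
  let e := RatFunc.algEquivOfTranscendental r hr
  let f := RatFunc.algEquivOfTranscendental x hx'
  let g : IntermediateField.adjoin A {r} →ₐ[A] C :=
    (IntermediateField.val _).comp (f.toAlgHom.comp e.symm.toAlgHom)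
  have hg : g (IntermediateField.AdjoinSimple.gen A r) = x := by
    change ((f (e.symm (IntermediateField.AdjoinSimple.gen A r)) :
      IntermediateField.adjoin A {x}) : C) = x
    rw [show e.symm (IntermediateField.AdjoinSimple.gen A r) = (RatFunc.X : RatFunc A) from
      RatFunc.algEquivOfTranscendental_symm_gen r hr]
    exact RatFunc.algEquivOfTranscendental_X x hx'
  letI : Algebra (IntermediateField.adjoin A {r}) C := g.toRingHom.toAlgebra
  let L : B →ₐ[IntermediateField.adjoin A {r}] C := IsAlgClosed.lift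
  refine ⟨L.toRingHom, ?_, ?_⟩
  · intro a
    have h := L.commutes (algebraMap A (IntermediateField.adjoin A {r}) a)
    change L (algebraMap (IntermediateField.adjoin A {r}) B
      (algebraMap A (IntermediateField.adjoin A {r}) a)) = g _ at h
    rw [g.commutes] at h
    exact h
  · have h := L.commutes (IntermediateField.AdjoinSimple.gen A r)
    change L (algebraMap (IntermediateField.adjoin A {r}) B
      (IntermediateField.AdjoinSimple.gen A r)) = g _ at h
    rw [hg] at h
    exact h

/-- a unit of `ℤ_2` which is transcendental over a countable field -/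
theorem exists_unit (p : ℕ) [Fact p.Prime] (A : Type) [Field A] [Countable A]
    (φ : A →+* PadicAlgCl p) :
    ∃ η : ℚ_[p], ‖η‖ = 1 ∧ ∀ P : A[X], P ≠ 0 →
      P.eval₂ φ (algebraMap ℚ_[p] (PadicAlgCl p) η) ≠ 0 := by
  letI : Algebra A (PadicAlgCl p) := φ.toAlgebra
  have hc : {z : PadicAlgCl p | IsAlgebraic A z}.Countable := Algebraic.countable A _
  have hc' : ((algebraMap ℚ_[p] (PadicAlgCl p)) ⁻¹' {z : PadicAlgCl p | IsAlgebraic A z}).Countable :=
    hc.preimage (algebraMap ℚ_[p] (PadicAlgCl p)).injective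
  have hd := hc'.dense_compl ℚ_[p]
  have ho : IsOpen (Metric.sphere (0 : ℚ_[p]) 1) :=
    IsUltrametricDist.isOpen_sphere 0 one_ne_zero
  have hne : (Metric.sphere (0 : ℚ_[p]) 1).Nonempty := ⟨1, by simp⟩
  obtain ⟨η, h1, h2⟩ := hd.inter_open_nonempty _ ho hne
  refine ⟨η, by simpa using h1, ?_⟩
  intro P hP h0
  apply h2
  exact ⟨P, hP, h0⟩

/-- the common part: extension of an embedding of `k₁` -/
theorem core (k₁ k B : Type) [Field k₁] [Field k] [Field B] [Countable k₁]
    [Algebra k₁ k] [Algebra k B] [Algebra k₁ B] [IsScalarTower k₁ k B]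
    [IsAlgClosure k B] (t₀ : k) (htr : Transcendental k₁ t₀)
    (hgen : IntermediateField.adjoin k₁ {t₀} = ⊤) (φ : k₁ →+* PadicAlgCl 2) :
    ∃ (ι₀ : algebraicClosure k₁ B →+* PadicAlgCl 2) (η : ℚ_[2]), ‖η‖ = 1 ∧
    (∀ z : k₁, ι₀ (algebraMap k₁ _ z) = φ z) ∧
    ∀ (r : B), r ^ 2 = algebraMap k B t₀ → ∀ (ς : algebraicClosure k₁ B) (j : ℕ), 1 ≤ j →
      ∃ ι : B →+* PadicAlgCl 2, (∀ z : algebraicClosure k₁ B, ι z = ι₀ z) ∧
        ι r = ι₀ ς + 2 ^ j * algebraMap ℚ_[2] (PadicAlgCl 2) η := by
  letI : Algebra k₁ (PadicAlgCl 2) := φ.toAlgebra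
  let L : algebraicClosure k₁ B →ₐ[k₁] PadicAlgCl 2 := IsAlgClosed.lift
  have hcount : Countable (algebraicClosure k₁ B) := by
    have h : {z : B | IsAlgebraic k₁ z}.Countable := Algebraic.countable k₁ B
    have h' := h.to_subtype
    refine Function.Injective.countable
      (f := fun z : algebraicClosure k₁ B =>
        (⟨z.1, mem_algebraicClosure_iff.1 z.2⟩ : {z : B | IsAlgebraic k₁ z})) ?_
    intro a b hab
    exact Subtype.ext (congrArg (fun u : {z : B | IsAlgebraic k₁ z} => u.1) hab)
  obtain ⟨η, hη, hηt⟩ := exists_unit 2 (algebraicClosure k₁ B) L.toRingHom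
  refine ⟨L.toRingHom, η, hη, fun z => L.commutes z, ?_⟩
  intro r hr ς j hj
  have hr_tr : Transcendental (algebraicClosure k₁ B) r := by
    intro hal
    have h1 : IsAlgebraic k₁ r := hal.restrictScalars k₁
    have h2 : IsAlgebraic k₁ (r ^ 2) := h1.pow 2
    rw [hr] at h2
    have h3 : IsAlgebraic k₁ t₀ := (isAlgebraic_algebraMap_iff (algebraMap k B).injective).1 h2
    exact htr h3
  have hc2 : (2 : PadicAlgCl 2) ≠ 0 := two_ne_zero
  have hx : ∀ P : (algebraicClosure k₁ B)[X], P ≠ 0 →
      P.eval₂ L.toRingHom (L ς + 2 ^ j * algebraMap ℚ_[2] (PadicAlgCl 2) η) ≠ 0 := by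
    intro P hP h0
    have h2 : (2 ^ j : algebraicClosure k₁ B) ≠ 0 := by
      intro h
      have h3 := congrArg L h
      rw [map_pow, map_zero, map_ofNat] at h3
      exact pow_ne_zero j hc2 h3
    apply hηt (P.comp (C ς + C (2 ^ j) * X))
    · intro h
      rw [Polynomial.comp_eq_zero_iff] at h
      rcases h with h | ⟨_, h⟩
      · exact hP h
      · have h5 := congrArg (fun q => Polynomial.coeff q 1) h
        simp only [Polynomial.coeff_add, Polynomial.coeff_C_mul, Polynomial.coeff_X_one,
          Polynomial.coeff_C_succ, zero_add, mul_one] at h5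
        exact h2 h5
    · rw [Polynomial.eval₂_comp]
      rw [← h0]
      congr 1
      rw [Polynomial.eval₂_add, Polynomial.eval₂_mul, Polynomial.eval₂_C, Polynomial.eval₂_C,
        Polynomial.eval₂_X, map_pow]
      congr 2
      rw [map_ofNat]
  have hkB : Algebra.IsAlgebraic k B := IsAlgClosure.isAlgebraic
  have hmem : ∀ z : k, algebraMap k B z ∈
      IntermediateField.adjoin (algebraicClosure k₁ B) {r} := by
    intro z
    have hz : z ∈ IntermediateField.adjoin k₁ {t₀} := by
      rw [hgen]; trivial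
    induction hz using IntermediateField.adjoin_induction with
    | mem x hx =>
      rw [Set.mem_singleton_iff] at hx
      subst hx
      rw [← hr]
      exact pow_mem (IntermediateField.mem_adjoin_simple_self _ _) 2
    | algebraMap x =>
      rw [← IsScalarTower.algebraMap_apply k₁ k B]
      have : algebraMap k₁ B x = algebraMap (algebraicClosure k₁ B) B
        (algebraMap k₁ (algebraicClosure k₁ B) x) := rfl
      rw [this]
      exact IntermediateField.algebraMap_mem _ _
    | add x y _ _ hx hy => rw [map_add]; exact add_mem hx hy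
    | inv x _ hx => rw [map_inv₀]; exact inv_mem hx
    | mul x y _ _ hx hy => rw [map_mul]; exact mul_mem hx hy
  have hBalg : Algebra.IsAlgebraic (IntermediateField.adjoin (algebraicClosure k₁ B) {r}) B := by
    let c : k →+* IntermediateField.adjoin (algebraicClosure k₁ B) {r} :=
      (algebraMap k B).codRestrict
        (IntermediateField.adjoin (algebraicClosure k₁ B) {r}).toSubfield.toSubring hmem
    letI : Algebra k (IntermediateField.adjoin (algebraicClosure k₁ B) {r}) := c.toAlgebra
    haveI : IsScalarTower k (IntermediateField.adjoin (algebraicClosure k₁ B) {r}) B :=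
      IsScalarTower.of_algebraMap_eq (fun z => rfl)
    exact Algebra.IsAlgebraic.tower_top (K := k) _
  obtain ⟨ι, h1, h2⟩ := lift_trans L.toRingHom r hr_tr _ hx hBalg
  exact ⟨ι, h1, h2⟩

/-- fields generated by algebraically independent elements have embeddings -/
theorem emb_gen (F K L ι : Type) [Field F] [Field K] [Field L] [Algebra F K] [Algebra F L]
    (t : ι → K) (ht : AlgebraicIndependent F t)
    (hK : IntermediateField.adjoin F (Set.range t) = ⊤) (τ : ι → L)
    (hτ : AlgebraicIndependent F τ) : Nonempty (K →ₐ[F] L) := by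
  let e₁ := ht.aevalEquivField
  let e₂ := hτ.aevalEquivField
  let i : K →ₐ[F] IntermediateField.adjoin F (Set.range t) :=
    ((IntermediateField.equivOfEq hK).symm.toAlgHom).comp
      (IntermediateField.topEquiv (F := F) (E := K)).symm.toAlgHom
  exact ⟨(IntermediateField.val _).comp (e₂.toAlgHom.comp (e₁.symm.toAlgHom.comp i))⟩

/-- a field of rational functions over `ℚ` has an embedding in `ℚ_p` -/
theorem emb_rat (p n : ℕ) [Fact p.Prime] (K : Type) [Field K] [Algebra ℚ K] (t : Fin n → K)
    (ht : AlgebraicIndependent ℚ t) (hK : IntermediateField.adjoin ℚ (Set.range t) = ⊤) :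
    Nonempty (K →+* ℚ_[p]) := by
  obtain ⟨τ, hτ⟩ := (Pool.Agent.Zk78.FG.dense_algInd (n := n) (p := p)).nonempty
  obtain ⟨f⟩ := emb_gen ℚ K ℚ_[p] (Fin n) t ht hK τ hτ
  exact ⟨f.toRingHom⟩

/-- countability of a finitely generated field -/
theorem countable_fg (K : Type) [Field K] [Algebra ℚ K] (S : Set K) (hS : S.Finite)
    (hK : IntermediateField.adjoin ℚ S = ⊤) : Countable K := by
  have h := IntermediateField.cardinalMk_adjoin_le ℚ S
  have h2 : Cardinal.mk (IntermediateField.adjoin ℚ S) ≤ Cardinal.aleph0 := by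
    refine h.trans ?_
    rw [sup_le_iff, sup_le_iff]
    refine ⟨⟨?_, ?_⟩, le_rfl⟩
    · simp
    · exact (Cardinal.lt_aleph0_iff_finite.2 hS.to_subtype).le
  have h3 : Countable (IntermediateField.adjoin ℚ S) := Cardinal.mk_le_aleph0_iff.1 h2
  refine Function.Injective.countable (f := fun z : K =>
    (⟨z, by rw [hK]; trivial⟩ : IntermediateField.adjoin ℚ S)) ?_
  intro a b hab
  exact congrArg Subtype.val hab

/-- a finitely generated field has an embedding in the algebraic closure of `ℚ_p` -/
theorem emb_fg (p : ℕ) [Fact p.Prime] (K : Type) [Field K] [CharZero K] (S : Set K) (hS : S.Finite)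
    (hK : IntermediateField.adjoin ℚ S = ⊤) : Nonempty (K →+* PadicAlgCl p) := by
  have hal : Algebra.IsAlgebraic (Algebra.adjoin ℚ S) K := by
    refine ⟨fun z => ?_⟩
    have hz : z ∈ IntermediateField.adjoin ℚ S := by rw [hK]; trivial
    rw [IntermediateField.mem_adjoin_iff_div] at hz
    obtain ⟨a, ha, b, hb, rfl⟩ := hz
    rw [div_eq_mul_inv]
    exact (isAlgebraic_algebraMap (⟨a, ha⟩ : Algebra.adjoin ℚ S)).mul
      (isAlgebraic_algebraMap (⟨b, hb⟩ : Algebra.adjoin ℚ S)).inv
  obtain ⟨t, htS, ht⟩ := exists_isTranscendenceBasis_subset (R := ℚ) (A := K) S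
  have hfin : Finite t := (hS.subset htS).to_subtype
  obtain ⟨n, ⟨e⟩⟩ := Finite.exists_equiv_fin t
  obtain ⟨τ, hτ⟩ := (Pool.Agent.Zk78.FG.dense_algInd (n := n) (p := p)).nonempty
  have hτ' : AlgebraicIndependent ℚ τ := hτ
  have h1 : AlgebraicIndependent ℚ (fun i : t => algebraMap ℚ_[p] (PadicAlgCl p) (τ (e i))) := by
    have h2 : AlgebraicIndependent ℚ (τ ∘ e) := hτ'.comp e e.injective
    exact h2.map' (f := (Algebra.ofId ℚ_[p] (PadicAlgCl p)).restrictScalars ℚ)
      (algebraMap ℚ_[p] (PadicAlgCl p)).injective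
  let x : t → K := (↑)
  let f : Algebra.adjoin ℚ (Set.range x) →ₐ[ℚ] PadicAlgCl p :=
    (MvPolynomial.aeval (fun i : t => algebraMap ℚ_[p] (PadicAlgCl p) (τ (e i)))).comp
      ht.1.aevalEquiv.symm.toAlgHom
  have hf : Function.Injective f := by
    intro a b hab
    exact ht.1.aevalEquiv.symm.injective (h1 hab)
  letI : Algebra (Algebra.adjoin ℚ (Set.range x)) (PadicAlgCl p) := f.toRingHom.toAlgebra
  have : FaithfulSMul (Algebra.adjoin ℚ (Set.range x)) (PadicAlgCl p) := by
    rw [faithfulSMul_iff_algebraMap_injective]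
    exact hf
  have : Algebra.IsAlgebraic (Algebra.adjoin ℚ (Set.range x)) K := ht.isAlgebraic
  let L : K →ₐ[Algebra.adjoin ℚ (Set.range x)] PadicAlgCl p := IsAlgClosed.lift
  exact ⟨L.toRingHom⟩

end Pool.Agent.Zk81.HT
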