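import Pool.Agent.Zk12.HT.Stm
import Pool.Agent.Zk81.HT.EmbCore

/-!
# Project HT, part M (embeddings)
-/

set_option autoImplicit false
set_option linter.all false

namespace Pool.Agent.Zk81.HT

theorem emb : Pool.Agent.Zk12.HT.S_EMB := by
  intro n k₁ k B _ _ _ _ _ _ _ _ _ t t₀ ht htr hgen
  obtain ⟨f⟩ := emb_rat 2 n k₁ t ht.1 ht.2
  have hcount : Countable k₁ := countable_fg k₁ (Set.range t) (Set.finite_range t) ht.2
  obtain ⟨ι₀, η, h1, h2, h3⟩ := core k₁ k B t₀ htr hgen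
    ((algebraMap ℚ_[2] (PadicAlgCl 2)).comp f)
  exact ⟨ι₀, η, h1, fun z => ⟨f z, h2 z⟩, h3⟩

end Pool.Agent.Zk81.HT
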