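import Pool.Agent.Zk12.HT.Stm2
import Pool.Agent.Zk81.HT.EmbCore

/-!
# Project HT, second stage, part M (embeddings)
-/

set_option autoImplicit false
set_option linter.all false

namespace Pool.Agent.Zk81.HT

theorem embF : Pool.Agent.Zk12.HT.S_EMBF := by
  intro k₁ k B _ _ _ _ _ _ _ _ _ t₀ hfg htr hgen
  obtain ⟨S, hS⟩ := hfg
  have hfin : (S : Set k₁).Finite := S.finite_toSet
  obtain ⟨φ⟩ := emb_fg 2 k₁ (S : Set k₁) hfin hS
  have hcount : Countable k₁ := countable_fg k₁ (S : Set k₁) hfin hS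
  obtain ⟨ι₀, η, h1, h2, h3⟩ := core k₁ k B t₀ htr hgen φ
  have hfd : FiniteDimensional ℚ_[2]
      (IntermediateField.adjoin ℚ_[2] (φ '' (S : Set k₁))) := by
    have h4 : (φ '' (S : Set k₁)).Finite := hfin.image _
    have := h4.to_subtype
    exact IntermediateField.finiteDimensional_adjoin
      (fun x _ => (Algebra.IsAlgebraic.isAlgebraic x).isIntegral)
  refine ⟨IntermediateField.adjoin ℚ_[2] (φ '' (S : Set k₁)), ι₀, η, hfd, h1, ?_, h3⟩
  intro z
  rw [h2]
  have hz : z ∈ IntermediateField.adjoin ℚ (S : Set k₁) := by rw [hS]; trivial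
  induction hz using IntermediateField.adjoin_induction with
  | mem x hx => exact IntermediateField.subset_adjoin _ _ ⟨x, hx, rfl⟩
  | algebraMap x =>
    have h5 : φ (algebraMap ℚ k₁ x) = algebraMap ℚ_[2] (PadicAlgCl 2) (algebraMap ℚ ℚ_[2] x) := by
      rw [eq_ratCast, eq_ratCast, map_ratCast, map_ratCast]
    rw [h5]
    exact IntermediateField.algebraMap_mem _ _
  | add x y _ _ hx hy => rw [map_add]; exact add_mem hx hy
  | inv x _ hx => rw [map_inv₀]; exact inv_mem hx
  | mul x y _ _ hx hy => rw [map_mul]; exact mul_mem hx hy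

end Pool.Agent.Zk81.HT
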