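import Mathlib
import Pool.Agent.Zk80.HT.ObStm

/-!
# Project HT+, parts OE and OQ: embeddings of `k` and division in `A[X]/(m)`
-/

set_option autoImplicit false
set_option linter.all false

open Polynomial

namespace Pool.Agent.Zk81.HT

open Pool.Agent.Zk80.HT

theorem ev_C {n : ℕ} {R : Type} [CommRing R] (i : ℚ →+* R) (t : Fin n → R) (θ : R) (a : A n) :
    ev i t θ (C a) = evt i t a := by
  unfold ev
  rw [Polynomial.coe_eval₂RingHom, Polynomial.eval₂_C]

theorem divK : S_DIVK := by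
  intro n k _ i t θ₀ m hm P hP
  letI : Algebra (A n) k := (evt i t).toAlgebra
  have hev : ∀ Q : (A n)[X], ev i t θ₀ Q = Polynomial.aeval θ₀ Q := fun Q => rfl
  have h1 : IsIntegral (A n) θ₀ := ⟨m, hm.monic, hm.root⟩
  have h2 : IsIntegral (A n) (ev i t θ₀ P) := by
    rw [hev]
    exact IsIntegral.of_mem_of_fg (Algebra.adjoin (A n) {θ₀}) h1.fg_adjoin_singleton _
      (Polynomial.aeval_mem_adjoin_singleton (A n) θ₀)
  obtain ⟨q, hq0, hq⟩ := h2.isAlgebraic.exists_nonzero_coeff_and_aeval_eq_zero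
    (mem_nonZeroDivisors_of_ne_zero hP)
  refine ⟨-(q.divX.eval₂ C P), q.coeff 0, hq0, hm.dvd _ ?_⟩
  rw [map_sub, map_mul, map_neg, ev_C]
  have h3 : ev i t θ₀ (q.divX.eval₂ C P) = Polynomial.aeval (ev i t θ₀ P) q.divX := by
    rw [Polynomial.hom_eval₂]
    have h6 : (ev i t θ₀).comp C = algebraMap (A n) k := RingHom.ext fun a => ev_C i t θ₀ a
    rw [h6]
    rfl
  rw [h3]
  have h4 := congrArg (Polynomial.aeval (ev i t θ₀ P)) (Polynomial.divX_mul_X_add q)
  rw [map_add, map_mul, Polynomial.aeval_X, Polynomial.aeval_C, hq] at h4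
  have h5 : algebraMap (A n) k (q.coeff 0) = evt i t (q.coeff 0) := rfl
  rw [h5] at h4
  linear_combination -h4

/-- homomorphisms of the field of fractions of the image -/
theorem ext_hom {R k L : Type} [CommRing R] [Field k] [Field L] (f : R →+* k) (g : R →+* L)
    (hker : ∀ x, f x = 0 ↔ g x = 0) (hq : ∀ c : k, ∃ a b, c = f a / f b) :
    ∃ φ : k →+* L, ∀ x, φ (f x) = g x := by
  have hs : Function.Surjective f.rangeRestrict := f.rangeRestrict_surjective
  have hfr : ∀ x, ((f.rangeRestrict x : f.range) : k) = f x := fun x => rfl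
  have hk : RingHom.ker f.rangeRestrict ≤ RingHom.ker g := by
    intro x hx
    rw [RingHom.mem_ker] at hx ⊢
    rw [← hker, ← hfr, hx]
    rfl
  let g₀ : f.range →+* L := (f.rangeRestrict.liftOfSurjective hs) ⟨g, hk⟩
  have hg₀ : ∀ x, g₀ (f.rangeRestrict x) = g x :=
    fun x => RingHom.liftOfSurjective_comp_apply f.rangeRestrict hs ⟨g, hk⟩ x
  have hinj : Function.Injective g₀ := by
    rw [injective_iff_map_eq_zero]
    intro y hy
    obtain ⟨x, rfl⟩ := hs y
    rw [hg₀, ← hker] at hy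
    exact Subtype.ext hy
  haveI : FaithfulSMul f.range k := by
    rw [faithfulSMul_iff_algebraMap_injective]
    exact Subtype.val_injective
  haveI : IsFractionRing f.range k := by
    refine IsFractionRing.of_field f.range k fun c => ?_
    obtain ⟨a, b, hc⟩ := hq c
    exact ⟨f.rangeRestrict a, f.rangeRestrict b, hc⟩
  refine ⟨IsFractionRing.lift hinj, fun x => ?_⟩
  have h1 := IsFractionRing.lift_algebraMap (K := k) hinj (f.rangeRestrict x)
  rw [hg₀] at h1
  exact h1

theorem embK_of (hD : S_DIVK) : S_EMBK := by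
  intro n k L _ _ i j t θ₀ m hm τ ρ hτ hρ
  have hker : ∀ P : (A n)[X], ev i t θ₀ P = 0 ↔ ev j τ ρ P = 0 := by
    intro P
    constructor
    · intro h
      obtain ⟨Q, rfl⟩ := hm.dvd P h
      rw [map_mul, hρ, zero_mul]
    · intro h
      by_contra hne
      obtain ⟨P', R, hR, Q, hQ⟩ := hD n k i t θ₀ m hm P hne
      have h1 := congrArg (ev j τ ρ) hQ
      rw [map_sub, map_mul, map_mul, h, hρ, zero_mul, zero_mul, zero_sub, neg_eq_zero, ev_C] at h1
      exact hR (hτ (by rw [h1, map_zero]))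
  refine ext_hom (ev i t θ₀) (ev j τ ρ) hker fun c => ?_
  obtain ⟨P, Q, hQ, hc⟩ := hm.quot c
  refine ⟨P, C Q, ?_⟩
  rw [ev_C]
  exact hc

theorem embK : S_EMBK := embK_of divK

end Pool.Agent.Zk81.HT
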